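import Mathlib

/-! A checker for families of congruent squares with rational data. -/

namespace Pool.Agent.Lib.MP_672b21_co

/-- corner `(X, Y)` and unit direction `(A / D, B / D)` -/
structure Sq where
  X : Int
  Y : Int
  A : Int
  B : Int
  D : Int

/-- the half plane `a x + b y ≤ c` -/
structure Hp where
  a : Int
  b : Int
  c : Int

def hp (K : Int) (s : Sq) : Nat → Hp
  | 0 => ⟨-s.A, -s.B, -(s.X * s.A + s.Y * s.B)⟩
  | 1 => ⟨s.A, s.B, s.X * s.A + s.Y * s.B + K * s.D⟩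
  | 2 => ⟨s.B, -s.A, s.X * s.B - s.Y * s.A⟩
  | _ => ⟨-s.B, s.A, s.Y * s.A - s.X * s.B + K * s.D⟩

def Hp.holds (h : Hp) (x y : ℝ) : Prop := (h.a : ℝ) * x + (h.b : ℝ) * y ≤ (h.c : ℝ)

def Mem (K : Int) (s : Sq) (x y : ℝ) : Prop := ∀ i, (hp K s i).holds x y

def far (h1 h2 h3 : Hp) : Bool :=
  decide (0 ≤ h2.a * h3.b - h3.a * h2.b) && decide (0 ≤ h3.a * h1.b - h1.a * h3.b) &&
    decide (0 ≤ h1.a * h2.b - h2.a * h1.b) &&
    decide ((h2.a * h3.b - h3.a * h2.b) * h1.c + (h3.a * h1.b - h1.a * h3.b) * h2.c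
      + (h1.a * h2.b - h2.a * h1.b) * h3.c < 0)

theorem far_sound {h1 h2 h3 : Hp} (h : far h1 h2 h3 = true) {x y : ℝ}
    (p1 : h1.holds x y) (p2 : h2.holds x y) (p3 : h3.holds x y) : False := by
  simp only [far, Bool.and_eq_true, decide_eq_true_eq] at h
  obtain ⟨⟨⟨a1, a2⟩, a3⟩, a4⟩ := h
  have b1 : (0 : ℝ) ≤ h2.a * h3.b - h3.a * h2.b := by exact_mod_cast a1
  have b2 : (0 : ℝ) ≤ h3.a * h1.b - h1.a * h3.b := by exact_mod_cast a2
  have b3 : (0 : ℝ) ≤ h1.a * h2.b - h2.a * h1.b := by exact_mod_cast a3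
  have b4 : ((h2.a : ℝ) * h3.b - h3.a * h2.b) * h1.c + (h3.a * h1.b - h1.a * h3.b) * h2.c
      + (h1.a * h2.b - h2.a * h1.b) * h3.c < 0 := by exact_mod_cast a4
  unfold Hp.holds at p1 p2 p3
  have c1 := mul_le_mul_of_nonneg_left p1 b1
  have c2 := mul_le_mul_of_nonneg_left p2 b2
  have c3 := mul_le_mul_of_nonneg_left p3 b3
  have e : ((h2.a : ℝ) * h3.b - h3.a * h2.b) * (h1.a * x + h1.b * y)
      + (h3.a * h1.b - h1.a * h3.b) * (h2.a * x + h2.b * y)
      + (h1.a * h2.b - h2.a * h1.b) * (h3.a * x + h3.b * y) = 0 := by ring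
  linarith

/-- a case distinction: which of the three points lies in square `i` -/
inductive Tr where
  | leaf (n : Nat) : Tr
  | node (i : Nat) (t0 t1 t2 : Tr) : Tr

def leafOk (K : Int) (sq : Nat → Sq) (l : List Nat) (n : Nat) : Bool :=
  l.contains (n / 64 % 64) && l.contains (n / 4096 % 64) && l.contains (n / 262144) &&
    far (hp K (sq (n / 64 % 64)) (n % 4)) (hp K (sq (n / 4096 % 64)) (n / 4 % 4))
      (hp K (sq (n / 262144)) (n / 16 % 4))

theorem leafOk_sound {K : Int} {sq : Nat → Sq} {l : List Nat} {n : Nat}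
    (h : leafOk K sq l n = true) {x y : ℝ} (hl : ∀ i ∈ l, Mem K (sq i) x y) : False := by
  simp only [leafOk, Bool.and_eq_true, List.contains_iff_mem] at h
  obtain ⟨⟨⟨a1, a2⟩, a3⟩, a4⟩ := h
  exact far_sound a4 (hl _ a1 _) (hl _ a2 _) (hl _ a3 _)

def chk (K : Int) (sq : Nat → Sq) (N : Nat) : Tr → List Nat → List Nat → List Nat → Bool
  | .leaf n, l0, l1, l2 =>
      match n % 3 with
      | 0 => leafOk K sq l0 (n / 3)
      | 1 => leafOk K sq l1 (n / 3)
      | _ => leafOk K sq l2 (n / 3)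
  | .node i t0 t1 t2, l0, l1, l2 =>
      decide (i < N) && chk K sq N t0 (i :: l0) l1 l2 && chk K sq N t1 l0 (i :: l1) l2 &&
        chk K sq N t2 l0 l1 (i :: l2)

theorem chk_sound {K : Int} {sq : Nat → Sq} {N : Nat} {x0 y0 x1 y1 x2 y2 : ℝ}
    (hc : ∀ i < N, Mem K (sq i) x0 y0 ∨ Mem K (sq i) x1 y1 ∨ Mem K (sq i) x2 y2) :
    ∀ (t : Tr) (l0 l1 l2 : List Nat), chk K sq N t l0 l1 l2 = true →
      (∀ i ∈ l0, Mem K (sq i) x0 y0) → (∀ i ∈ l1, Mem K (sq i) x1 y1) →
      (∀ i ∈ l2, Mem K (sq i) x2 y2) → False := by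
  intro t
  induction t with
  | leaf n =>
    intro l0 l1 l2 h h0 h1 h2
    unfold chk at h
    split at h
    · exact leafOk_sound h h0
    · exact leafOk_sound h h1
    · exact leafOk_sound h h2
  | node i t0 t1 t2 i0 i1 i2 =>
    intro l0 l1 l2 h h0 h1 h2
    simp only [chk, Bool.and_eq_true, decide_eq_true_eq] at h
    obtain ⟨⟨⟨a, a0⟩, a1⟩, a2⟩ := h
    rcases hc i a with m | m | m
    · exact i0 _ _ _ a0 (List.forall_mem_cons.2 ⟨m, h0⟩) h1 h2
    · exact i1 _ _ _ a1 h0 (List.forall_mem_cons.2 ⟨m, h1⟩) h2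
    · exact i2 _ _ _ a2 h0 h1 (List.forall_mem_cons.2 ⟨m, h2⟩)

/-- membership of an integer point -/
def memB (K : Int) (s : Sq) (p : Int × Int) : Bool :=
  decide ((hp K s 0).a * p.1 + (hp K s 0).b * p.2 ≤ (hp K s 0).c) &&
  decide ((hp K s 1).a * p.1 + (hp K s 1).b * p.2 ≤ (hp K s 1).c) &&
  decide ((hp K s 2).a * p.1 + (hp K s 2).b * p.2 ≤ (hp K s 2).c) &&
  decide ((hp K s 3).a * p.1 + (hp K s 3).b * p.2 ≤ (hp K s 3).c)

theorem memB_sound {K : Int} {s : Sq} {p : Int × Int} (h : memB K s p = true) :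
    Mem K s (p.1 : ℝ) (p.2 : ℝ) := by
  simp only [memB, Bool.and_eq_true, decide_eq_true_eq] at h
  obtain ⟨⟨⟨a0, a1⟩, a2⟩, a3⟩ := h
  intro i
  unfold Hp.holds
  match i with
  | 0 => exact_mod_cast a0
  | 1 => exact_mod_cast a1
  | 2 => exact_mod_cast a2
  | (n + 3) => exact_mod_cast a3

/-- every two squares share one of the listed points -/
def pairsOk (K : Int) (sq : Nat → Sq) (N : Nat) (pts : List (Int × Int)) : Bool :=
  (List.range N).all fun i =>
    (List.range N).all fun j =>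
      (pts.filter (memB K (sq i))).any (memB K (sq j))

theorem pairsOk_sound {K : Int} {sq : Nat → Sq} {N : Nat} {pts : List (Int × Int)}
    (h : pairsOk K sq N pts = true) {i j : Nat} (hi : i < N) (hj : j < N) :
    ∃ x y : ℝ, Mem K (sq i) x y ∧ Mem K (sq j) x y := by
  simp only [pairsOk, List.all_eq_true, List.mem_range, List.any_eq_true, List.mem_filter] at h
  obtain ⟨p, ⟨_, a⟩, b⟩ := h i hi j hj
  exact ⟨p.1, p.2, memB_sound a, memB_sound b⟩

def unitOk (sq : Nat → Sq) (N : Nat) : Bool :=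
  (List.range N).all fun i =>
    decide (0 < (sq i).D) && decide ((sq i).A * (sq i).A + (sq i).B * (sq i).B = (sq i).D * (sq i).D)

abbrev E := EuclideanSpace ℝ (Fin 2)

/-- the square scaled down to side one -/
def sset (K : Int) (s : Sq) : Set E := {p | Mem K s ((K : ℝ) * p 0) ((K : ℝ) * p 1)}

theorem sset_unit {K : Int} (hK : 0 < K) {s : Sq} (hD : 0 < s.D)
    (hs : s.A * s.A + s.B * s.B = s.D * s.D) :
    ∃ a u v : E, ‖u‖ = 1 ∧ ‖v‖ = 1 ∧ inner ℝ u v = 0 ∧
      sset K s = {p | ∃ x ∈ Set.Icc (0 : ℝ) 1, ∃ y ∈ Set.Icc (0 : ℝ) 1, p = a + x • u + y • v} := by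
  have k : (0 : ℝ) < K := by exact_mod_cast hK
  have d : (0 : ℝ) < s.D := by exact_mod_cast hD
  have e : (s.A : ℝ) * s.A + s.B * s.B = s.D * s.D := by exact_mod_cast hs
  have e1 : ((s.A : ℝ) / s.D) ^ 2 + ((s.B : ℝ) / s.D) ^ 2 = 1 := by
    field_simp
    linarith
  refine ⟨!₂[(s.X : ℝ) / K, (s.Y : ℝ) / K], !₂[(s.A : ℝ) / s.D, (s.B : ℝ) / s.D],
    !₂[-((s.B : ℝ) / s.D), (s.A : ℝ) / s.D], ?_, ?_, ?_, ?_⟩
  · rw [EuclideanSpace.norm_eq]
    simp only [Fin.sum_univ_two, Real.norm_eq_abs, sq_abs]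
    simp [e1]
  · rw [EuclideanSpace.norm_eq]
    simp only [Fin.sum_univ_two, Real.norm_eq_abs, sq_abs]
    simp [add_comm, e1]
  · simp [PiLp.inner_apply, Fin.sum_univ_two]
    ring
  · ext p
    have kd : (0 : ℝ) < K * s.D := mul_pos k d
    constructor
    · intro h
      have h0 := h 0
      have h1 := h 1
      have h2 := h 2
      have h3 := h 3
      simp only [hp, Hp.holds] at h0 h1 h2 h3
      push_cast at h0 h1 h2 h3
      refine ⟨((K * p 0 - s.X) * s.A + (K * p 1 - s.Y) * s.B) / (K * s.D),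
        ⟨div_nonneg (by linarith) kd.le, (div_le_one kd).2 (by linarith)⟩,
        ((K * p 1 - s.Y) * s.A - (K * p 0 - s.X) * s.B) / (K * s.D),
        ⟨div_nonneg (by linarith) kd.le, (div_le_one kd).2 (by linarith)⟩, ?_⟩
      ext i
      fin_cases i
      · simp
        field_simp
        linear_combination (-(K * p 0 - s.X : ℝ)) * e
      · simp
        field_simp
        linear_combination (-(K * p 1 - s.Y : ℝ)) * e
    · rintro ⟨x, ⟨x0, x1⟩, y, ⟨y0, y1⟩, rfl⟩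
      have f0 : (K : ℝ) * ((s.X : ℝ) / K + x * (s.A / s.D) + -(y * (s.B / s.D))) * s.A
          + K * ((s.Y : ℝ) / K + x * (s.B / s.D) + y * (s.A / s.D)) * s.B
          = s.X * s.A + s.Y * s.B + x * (K * s.D) := by
        field_simp
        linear_combination (K * x : ℝ) * e
      have f1 : (K : ℝ) * ((s.Y : ℝ) / K + x * (s.B / s.D) + y * (s.A / s.D)) * s.A
          - K * ((s.X : ℝ) / K + x * (s.A / s.D) + -(y * (s.B / s.D))) * s.B
          = s.Y * s.A - s.X * s.B + y * (K * s.D) := by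
        field_simp
        linear_combination (K * y : ℝ) * e
      have g0 := mul_nonneg x0 kd.le
      have g1 := mul_le_mul_of_nonneg_right x1 kd.le
      have g2 := mul_nonneg y0 kd.le
      have g3 := mul_le_mul_of_nonneg_right y1 kd.le
      intro i
      match i with
      | 0 => simp [hp, Hp.holds]; linarith
      | 1 => simp [hp, Hp.holds]; linarith
      | 2 => simp [hp, Hp.holds]; linarith
      | (n + 3) => simp [hp, Hp.holds]; linarith

theorem main {K : Int} (hK : 0 < K) {sq : Nat → Sq} {N : Nat} {pts : List (Int × Int)} {t : Tr}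
    (h1 : unitOk sq N = true) (h2 : pairsOk K sq N pts = true)
    (h3 : chk K sq N t [] [] [] = true) :
    ∃ F : Finset (Set E), F.card ≤ N ∧
      (∀ S ∈ F, ∃ a u v : E, ‖u‖ = 1 ∧ ‖v‖ = 1 ∧ inner ℝ u v = 0 ∧
        S = {p | ∃ x ∈ Set.Icc (0 : ℝ) 1, ∃ y ∈ Set.Icc (0 : ℝ) 1, p = a + x • u + y • v}) ∧
      (∀ S ∈ F, ∀ T ∈ F, (S ∩ T).Nonempty) ∧
      ∀ p q r : E, ∃ S ∈ F, p ∉ S ∧ q ∉ S ∧ r ∉ S := by
  classical
  have k : (0 : ℝ) < K := by exact_mod_cast hK
  refine ⟨(Finset.range N).image fun i => sset K (sq i), ?_, ?_, ?_, ?_⟩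
  · exact Finset.card_image_le.trans (by simp)
  · intro S hS
    obtain ⟨i, hi, rfl⟩ := Finset.mem_image.1 hS
    simp only [unitOk, List.all_eq_true, List.mem_range, Bool.and_eq_true,
      decide_eq_true_eq] at h1
    obtain ⟨a, b⟩ := h1 i (Finset.mem_range.1 hi)
    exact sset_unit hK a b
  · intro S hS T hT
    obtain ⟨i, hi, rfl⟩ := Finset.mem_image.1 hS
    obtain ⟨j, hj, rfl⟩ := Finset.mem_image.1 hT
    obtain ⟨x, y, a, b⟩ := pairsOk_sound h2 (Finset.mem_range.1 hi) (Finset.mem_range.1 hj)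
    have ex : (K : ℝ) * (x / K) = x := by field_simp
    have ey : (K : ℝ) * (y / K) = y := by field_simp
    refine ⟨!₂[x / K, y / K], ?_, ?_⟩
    · simpa [sset, ex, ey] using a
    · simpa [sset, ex, ey] using b
  · intro p q r
    by_contra hcon
    push Not at hcon
    refine chk_sound (K := K) (sq := sq) (N := N) (x0 := K * p 0) (y0 := K * p 1) (x1 := K * q 0)
      (y1 := K * q 1) (x2 := K * r 0) (y2 := K * r 1) ?_ t [] [] [] h3 (by simp) (by simp)
      (by simp)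
    intro i hi
    have := hcon _ (Finset.mem_image.2 ⟨i, Finset.mem_range.2 hi, rfl⟩)
    by_cases a : p ∈ sset K (sq i)
    · exact Or.inl a
    by_cases b : q ∈ sset K (sq i)
    · exact Or.inr (Or.inl b)
    exact Or.inr (Or.inr (this a b))

end Pool.Agent.Lib.MP_672b21_co
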