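import Pool.Agent.Lib.MP_672b21_co.Check

/-! Forty-eight pairwise intersecting congruent squares that no three points hit. -/

namespace Pool.Agent.Lib.MP_672b21_co

def KK : Int := 105000000000020

def sqs : List Sq := [
  ⟨-105211885562866, -104787689712398, 9999989799, -20200000, 10000010201⟩,
  ⟨-71545662002742, 144091469087, 999999, -2000, 1000001⟩,
  ⟨-104748179849319, 209500492706, 999999, -2000, 1000001⟩,
  ⟨-33457192002936, 67579879972, 39999960399, -79600000, 40000039601⟩,
  ⟨-208689800540, -104999796252958, 39999961191, -78800000, 40000038809⟩,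
  ⟨-206849799319, -104999792536151, 39999961191, -78800000, 40000038809⟩,
  ⟨-1840001231, -10, 39999961191, 78800000, 40000038809⟩,
  ⟨-33248242209801, -105067371974947, 39999960399, 79600000, 40000039601⟩,
  ⟨-49975788457856, -105101161679087, 999999, 2000, 1000001⟩,
  ⟨-104999785779229, -212096066841, 9999989799, 20200000, 10000010201⟩,
  ⟨-788212206, -1309112015, 169911, 283000, 330089⟩,
  ⟨-23208486999698, -146666607896823, 1431, 1040, 1769⟩,
  ⟨74219131102698, -74273275345105, 207151, 207000, 292849⟩,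
  ⟨-407399338, -1000816813, 728559, 1042000, 1271441⟩,
  ⟨-61653436528606, -84993245721213, 7399, 10200, 12601⟩,
  ⟨-2008459, -3712759, 1, 0, 1⟩,
  ⟨-92739922620721, -49237253358767, 937999, 498000, 1062001⟩,
  ⟨-2023445, -104999996287291, 1, 0, 1⟩,
  ⟨-105628104347071, -104368115945268, 999991, -6000, 1000009⟩,
  ⟨-250063738163, 501412450, 39999960399, -79600000, 40000039601⟩,
  ⟨-207629521015, -104999794111191, 39999961191, -78800000, 40000038809⟩,
  ⟨-207474062930, -104999793797165, 39999961191, -78800000, 40000038809⟩,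
  ⟨-207006408999, -104999792852503, 39999961191, -78800000, 40000038809⟩,
  ⟨-18245145640063, -103402685793119, 296079, 1678000, 1703921⟩,
  ⟨-47641901922528, -93569492233130, 624231, 1226000, 1375769⟩,
  ⟨-207351381238, -104999793549348, 39999961191, -78800000, 40000038809⟩,
  ⟨-1364563914, -960394, 39999961191, 78800000, 40000038809⟩,
  ⟨-84937814055537, -61729784276049, 1431, 1040, 1769⟩,
  ⟨-71585580905866, -76814717245378, 32431, 34800, 47569⟩,
  ⟨-67533339759312, -80400526472722, 195711, 233000, 304289⟩,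
  ⟨-64608696098256, -82769033203439, 5952, 7625, 9673⟩,
  ⟨-1254936986, -1181841, 39999961191, 78800000, 40000038809⟩,
  ⟨-1096047383, -1502798, 39999961191, 78800000, 40000038809⟩,
  ⟨-207692202509, -104999794237808, 39999961191, -78800000, 40000038809⟩,
  ⟨-1046531890, -1602820, 39999961191, 78800000, 40000038809⟩,
  ⟨-207784842238, -104999794424940, 39999961191, -78800000, 40000038809⟩,
  ⟨-933646074, -1830849, 39999961191, 78800000, 40000038809⟩,
  ⟨-208008456022, -104999794876640, 39999961191, -78800000, 40000038809⟩,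
  ⟨-75533959824996, -72935711519872, 52299, 50500, 72701⟩,
  ⟨-207889079200, -104999794635499, 39999961191, -78800000, 40000038809⟩,
  ⟨-80431113291055, -67496919036172, 54219, 45500, 70781⟩,
  ⟨-717090441, -2268292, 39999961191, 78800000, 40000038809⟩,
  ⟨-531273165, -2643643, 39999961191, 78800000, 40000038809⟩,
  ⟨-104939323290011, -3568964706939, 999711, 34000, 1000289⟩,
  ⟨-27640644, -3660982, 39999961191, 78800000, 40000038809⟩,
  ⟨-208232073097, -104999795328347, 39999961191, -78800000, 40000038809⟩,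
  ⟨-826416062, -2047454, 39999961191, 78800000, 40000038809⟩,
  ⟨101275521328187, -108566795097593, 16711, 483000, 483289⟩]

def sq (i : Nat) : Sq := sqs.getD i ⟨0, 0, 1, 0, 1⟩

def pts : List (Int × Int) := [
  (-27639002, -3660972),
  (-2020090, 3712722),
  (251610149557, -499297282),
  (-501580243, 2703610),
  (189082087975, 63483901930),
  (2, 3716804),
  (-30954551657, 1064583781),
  (-700908586, 410786),
  (33454127780225, -65908320472),
  (-2005227, -3712752),
  (-22314536729413, -402258130532),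
  (53270020313514, -104976555018),
  (53269732203213, 104975984558),
  (1, -3716805),
  (-531271546, -2643633),
  (-896764795, -1104306721),
  (-64425703470195, 129993937373),
  (-146862191, 1476901),
  (-459865725, 1000921730),
  (-1046530213, -1602810),
  (-826414421, -2047444),
  (-1096045757, -1502788),
  (-1364562292, -960384),
  (-1839999531, 1),
  (-933644446, -1830839),
  (-1254935333, -1181831),
  (-1039278206, 1617459),
  (-717088798, -2268282),
  (-6503, -907626),
  (-1158654992, 1376317),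
  (-842401542, 2015150),
  (-779720027, 2141767),
  (-1382272071, 924610),
  (-935041234, 1828018),
  (-33457191786796, 67579879548),
  (-624261912, 2455792),
  (-156607973, 3400454),
  (-407399344, -1000816797),
  (-250063517425, 501412017),
  (-50185787903213, -101371678175),
  (-33457191772313, -67579879519)]

def t0 : Tr :=
  (.node 22 (.node 10 (.leaf 8136105) (.node 15 (.leaf 11882535) (.leaf 11995027) (.node 23 (.leaf
  18359721) (.node 1 (.leaf 872583) (.leaf 8147155) (.leaf 4116848)) (.leaf 18273290))) (.node 1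
  (.leaf 872583) (.node 2 (.leaf 1659015) (.node 17 (.node 18 (.leaf 14366073) (.leaf 15163627)
  (.leaf 14279786)) (.leaf 13394275) (.leaf 13493354)) (.leaf 4055600)) (.leaf 4055408))) (.leaf
  15215752) (.node 6 (.leaf 4804743) (.node 12 (.leaf 9523239) (.leaf 12818770) (.node 15 (.leaf
  11882535) (.leaf 11994259) (.node 1 (.leaf 872583) (.node 2 (.leaf 1659015) (.node 23 (.node 17
  (.leaf 18298281) (.leaf 13394275) (.node 24 (.node 25 (.leaf 19183017) (.leaf 19685731) (.node
  26 (.leaf 20533383) (.node 14 (.node 21 (.leaf 11269545) (.leaf 16540003) (.node 31 (.leaf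
  24465543) (.node 30 (.node 20 (.leaf 23840169) (.leaf 15753571) (.node 32 (.leaf 25251975)
  (.node 29 (.node 33 (.leaf 23213481) (.leaf 25977187) (.node 34 (.leaf 26824839) (.node 28
  (.node 35 (.leaf 22451625) (.leaf 27550051) (.node 36 (.leaf 28397703) (.node 38 (.node 39
  (.leaf 30365097) (.leaf 30695779) (.node 46 (.leaf 36262023) (.node 40 (.node 45 (.node 27
  (.leaf 21788073) (.node 37 (.leaf 31913385) (.leaf 29122915) (.node 41 (.leaf 32329863) (.leaf
  32575699) (.leaf 29602922))) (.leaf 13702250)) (.leaf 35414371) (.node 42 (.leaf 33116295)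
  (.leaf 33226963) (.leaf 35906666))) (.leaf 36667603) (.leaf 13861994)) (.leaf 31237226))) (.leaf
  28778707) (.leaf 13837418)) (.leaf 27968618))) (.leaf 27082963) (.leaf 13714538)) (.leaf
  26371178))) (.leaf 25522387) (.leaf 13726826)) (.leaf 16122986))) (.leaf 24748243) (.leaf
  13739114)) (.leaf 16897130))) (.leaf 20619475) (.leaf 13542506)) (.leaf 19981418))) (.leaf
  5013715) (.leaf 19061066))) (.leaf 5001427) (.leaf 18273290)) (.leaf 4117040)) (.leaf
  4116848)))) (.leaf 17376362)))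

def t1 : Tr :=
  (.node 7 (.node 16 (.node 15 (.leaf 11882535) (.node 9 (.node 47 (.leaf 7656909) (.leaf
  37198729) (.node 1 (.leaf 872583) (.node 2 (.leaf 1659015) (.node 4 (.leaf 5616552) (.leaf
  3170659) (.node 8 (.leaf 6403560) (.leaf 6316387) (.node 10 (.leaf 7202217) (.node 11 (.leaf
  7213197) (.leaf 11931859) (.node 12 (.leaf 9523239) (.leaf 9560431) (.leaf 8799803))) (.leaf
  7926635)))) (.leaf 4510100)) (.leaf 4509908))) (.node 3 (.leaf 2445447) (.leaf 11907667) (.node
  1 (.leaf 872583) (.leaf 11907283) (.leaf 2421065))) (.node 4 (.leaf 5702568) (.leaf 12030850)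
  (.leaf 7140203))) (.node 47 (.node 1 (.leaf 872583) (.node 2 (.leaf 1659015) (.node 4 (.leaf
  5702568) (.leaf 3170659) (.node 43 (.leaf 34395597) (.node 44 (.leaf 34689159) (.leaf 35131603)
  (.leaf 34665323)) (.leaf 33878891))) (.leaf 4117040)) (.leaf 4116848)) (.node 1 (.leaf 872583)
  (.node 2 (.leaf 1659015) (.node 4 (.leaf 5702568) (.leaf 3170659) (.node 6 (.leaf 4804743)
  (.leaf 5296339) (.leaf 4780907))) (.leaf 4117040)) (.leaf 4116848)) (.leaf 37147658))) t0 (.node
  47 (.node 1 (.leaf 872583) (.node 43 (.leaf 34395597) (.node 44 (.leaf 34689159) (.leaf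
  35131603) (.leaf 13124618)) (.leaf 13112330)) (.leaf 4128980)) (.node 44 (.leaf 34689159) (.leaf
  35184211) (.leaf 13124618)) (.node 15 (.leaf 11882535) (.node 1 (.leaf 872583) (.node 2 (.leaf
  1659015) (.node 8 (.node 9 (.leaf 6403560) (.leaf 11907283) (.leaf 12694538)) (.leaf 6316387)
  (.leaf 6489194)) (.leaf 4129172)) (.leaf 4128980)) (.leaf 37147658)))) (.node 47 (.node 2 (.leaf
  2150541) (.leaf 15028744) (.node 11 (.node 9 (.leaf 7213197) (.leaf 7312786) (.leaf 4043156))
  (.leaf 8885650) (.leaf 4067876))) (.leaf 37197202) (.node 10 (.node 2 (.leaf 1695849) (.leaf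
  15028744) (.leaf 4510100)) (.leaf 8099266) (.leaf 37086218))) (.node 15 (.node 26 (.leaf
  20631657) (.node 14 (.leaf 11194473) (.node 31 (.leaf 24563817) (.node 3 (.leaf 2543721) (.leaf
  24552019) (.node 1 (.leaf 970857) (.leaf 20619475) (.leaf 2421065))) (.leaf 24466511)) (.leaf
  5678186)) (.leaf 20534351)) (.node 1 (.node 47 (.leaf 1364109) (.leaf 37198729) (.node 3 (.leaf
  823401) (.node 4 (.leaf 835719) (.leaf 3330799) (.node 11 (.leaf 921741) (.leaf 11932243) (.node
  12 (.leaf 934023) (.node 10 (.leaf 909417) (.leaf 9560815) (.leaf 7926635)) (.leaf 8799611))))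
  (.leaf 4510292))) (.node 9 (.node 11 (.leaf 7213197) (.leaf 11931859) (.node 13 (.leaf 7237737)
  (.node 12 (.leaf 7225449) (.leaf 9597295) (.leaf 8799611)) (.leaf 5665898))) (.leaf 11907283)
  (.leaf 5616746)) (.node 47 (.node 3 (.leaf 2936973) (.node 9 (.node 11 (.leaf 7213197) (.leaf
  11932243) (.leaf 4067540)) (.leaf 11907667) (.leaf 4042964)) (.leaf 2421065)) (.leaf 37198729)
  (.leaf 4509908))) (.leaf 11883599)))

def t2 : Tr :=
  (.node 5 (.node 8 (.leaf 4030503) (.node 9 (.leaf 7139433) (.leaf 7312978) (.node 10 (.leaf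
  7925865) (.leaf 8099458) (.node 7 (.leaf 4018215) (.node 2 (.leaf 1634439) (.leaf 15028744)
  (.node 1 (.leaf 848007) (.node 36 (.leaf 28373097) (.leaf 28397896) (.node 18 (.leaf 14217273)
  (.leaf 5726563) (.leaf 28533164))) (.node 18 (.leaf 14217273) (.leaf 14390674) (.leaf
  8085740)))) (.leaf 7202219)))) (.node 18 (.leaf 14217273) (.node 36 (.leaf 28373097) (.leaf
  15388138) (.node 7 (.leaf 4018215) (.leaf 14390674) (.node 1 (.leaf 848007) (.leaf 15163627)
  (.leaf 28397897)))) (.node 15 (.leaf 11858025) (.node 1 (.leaf 848007) (.node 2 (.leaf 1634439)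
  (.node 7 (.leaf 4018215) (.leaf 5529955) (.node 9 (.leaf 7139433) (.leaf 11907283) (.leaf
  6403562))) (.leaf 6513188)) (.leaf 6512996)) (.leaf 14341691)))) (.node 6 (.node 11 (.leaf
  4853901) (.leaf 8885266) (.node 44 (.leaf 5259369) (.leaf 34837570) (.node 3 (.leaf 2433129)
  (.node 1 (.leaf 860265) (.leaf 2421064) (.leaf 34738388)) (.leaf 34738772)))) (.leaf 4953154)
  (.node 44 (.node 1 (.leaf 1327209) (.node 15 (.leaf 34787433) (.leaf 4116847) (.node 9 (.leaf
  7618665) (.leaf 4042963) (.node 3 (.leaf 2900073) (.leaf 2421064) (.leaf 11907668)))) (.node 9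
  (.leaf 7618665) (.leaf 7312393) (.node 8 (.leaf 34701447) (.node 15 (.leaf 34787433) (.leaf
  11895886) (.leaf 11907284)) (.leaf 6402404)))) (.leaf 34837570) (.node 1 (.node 47 (.leaf
  1364109) (.leaf 37196809) (.leaf 35181716)) (.node 15 (.node 14 (.leaf 11194473) (.leaf 4104403)
  (.node 3 (.leaf 2543721) (.leaf 2421064) (.leaf 34775636))) (.leaf 4116847) (.node 47 (.node 3
  (.leaf 2936973) (.leaf 2421064) (.node 11 (.node 9 (.leaf 7213197) (.leaf 4042963) (.leaf
  11907668)) (.leaf 4067539) (.leaf 11932244))) (.leaf 4509907) (.leaf 12375188))) (.node 15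
  (.node 14 (.leaf 11194473) (.leaf 11244562) (.leaf 34775252)) (.node 14 (.node 17 (.leaf
  11219049) (.node 43 (.node 22 (.leaf 34087017) (.leaf 15215563) (.leaf 17375600)) (.leaf
  13898857) (.leaf 35131604)) (.leaf 13443440)) (.leaf 11244562) (.leaf 34775252)) (.node 9 (.node
  11 (.leaf 7213197) (.leaf 8885266) (.leaf 11931860)) (.leaf 7312393) (.leaf 11907284)))))) t1)

def t3 : Tr :=
  (.node 22 (.node 10 (.leaf 8136105) (.node 1 (.leaf 872583) (.leaf 4055407) (.node 2 (.leaf
  1659015) (.leaf 4055599) (.node 17 (.node 18 (.leaf 14366073) (.leaf 14279785) (.leaf 15163628))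
  (.leaf 13493353) (.leaf 13394276)))) (.node 15 (.leaf 11882535) (.node 23 (.leaf 18359721)
  (.leaf 18273289) (.node 1 (.leaf 872583) (.leaf 4116847) (.leaf 8147156))) (.leaf 11995028)))
  (.node 6 (.leaf 4804743) (.leaf 17376361) (.node 12 (.leaf 9523239) (.node 15 (.leaf 11882535)
  (.node 1 (.leaf 872583) (.leaf 4116847) (.node 2 (.leaf 1659015) (.leaf 4117039) (.node 23
  (.node 17 (.leaf 18298281) (.node 24 (.node 25 (.leaf 19183017) (.node 26 (.leaf 20533383)
  (.leaf 19981417) (.node 14 (.node 21 (.leaf 11269545) (.node 31 (.leaf 24465543) (.leaf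
  16897129) (.node 30 (.node 20 (.leaf 23840169) (.node 32 (.leaf 25251975) (.leaf 16122985)
  (.node 29 (.node 33 (.leaf 23213481) (.node 34 (.leaf 26824839) (.leaf 26371177) (.node 28
  (.node 35 (.leaf 22451625) (.node 36 (.leaf 28397703) (.leaf 27968617) (.node 38 (.node 39
  (.leaf 30365097) (.node 46 (.leaf 36262023) (.leaf 31237225) (.node 40 (.node 45 (.node 27
  (.leaf 21788073) (.leaf 13702249) (.node 37 (.leaf 31913385) (.node 41 (.leaf 32329863) (.leaf
  29602921) (.leaf 32575700)) (.leaf 29122916))) (.node 42 (.leaf 33116295) (.leaf 35906665)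
  (.leaf 33226964)) (.leaf 35414372)) (.leaf 13861993) (.leaf 36667604))) (.leaf 30695780)) (.leaf
  13837417) (.leaf 28778708))) (.leaf 27550052)) (.leaf 13714537) (.leaf 27082964))) (.leaf
  25977188)) (.leaf 13726825) (.leaf 25522388))) (.leaf 15753572)) (.leaf 13739113) (.leaf
  24748244))) (.leaf 16540004)) (.leaf 13542505) (.leaf 20619476))) (.leaf 19685732)) (.leaf
  19061065) (.leaf 5013716)) (.leaf 13394276)) (.leaf 18273289) (.leaf 5001428)))) (.leaf
  11994260)) (.leaf 12818771))) (.leaf 15215753))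

def t4 : Tr :=
  (.node 7 (.node 16 (.node 15 (.leaf 11882535) (.node 47 (.node 1 (.leaf 872583) (.leaf 4116847)
  (.node 2 (.leaf 1659015) (.leaf 4117039) (.node 4 (.leaf 5702568) (.node 43 (.leaf 34395597)
  (.leaf 33878890) (.node 44 (.leaf 34689159) (.leaf 34665322) (.leaf 35131604))) (.leaf
  3170660)))) (.leaf 37147657) (.node 1 (.leaf 872583) (.leaf 4116847) (.node 2 (.leaf 1659015)
  (.leaf 4117039) (.node 4 (.leaf 5702568) (.node 6 (.leaf 4804743) (.leaf 4780906) (.leaf
  5296340)) (.leaf 3170660))))) (.node 9 (.node 47 (.leaf 7656909) (.node 1 (.leaf 872583) (.leaf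
  4509907) (.node 2 (.leaf 1659015) (.leaf 4510099) (.node 4 (.leaf 5616552) (.node 8 (.leaf
  6403560) (.node 10 (.leaf 7202217) (.leaf 7926634) (.node 11 (.leaf 7213197) (.node 12 (.leaf
  9523239) (.leaf 8799802) (.leaf 9560432)) (.leaf 11931860))) (.leaf 6316388)) (.leaf 3170660))))
  (.leaf 37198730)) (.node 4 (.leaf 5702568) (.leaf 7140202) (.leaf 12030851)) (.node 3 (.leaf
  2445447) (.node 1 (.leaf 872583) (.leaf 2421064) (.leaf 11907284)) (.leaf 11907668)))) (.node 47
  (.node 1 (.leaf 872583) (.leaf 4128979) (.node 43 (.leaf 34395597) (.leaf 13112329) (.node 44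
  (.leaf 34689159) (.leaf 13124617) (.leaf 35131604)))) (.node 15 (.leaf 11882535) (.leaf
  37147657) (.node 1 (.leaf 872583) (.leaf 4128979) (.node 2 (.leaf 1659015) (.leaf 4129171)
  (.node 8 (.node 9 (.leaf 6403560) (.leaf 12694537) (.leaf 11907284)) (.leaf 6489193) (.leaf
  6316388))))) (.node 44 (.leaf 34689159) (.leaf 13124617) (.leaf 35184212))) t3) (.node 15 (.node
  26 (.leaf 20631657) (.leaf 20534350) (.node 14 (.leaf 11194473) (.leaf 5678185) (.node 31 (.leaf
  24563817) (.leaf 24466510) (.node 3 (.leaf 2543721) (.node 1 (.leaf 970857) (.leaf 2421064)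
  (.leaf 20619476)) (.leaf 24552020))))) (.leaf 11883598) (.node 1 (.node 47 (.leaf 1364109)
  (.node 3 (.leaf 823401) (.leaf 4510291) (.node 4 (.leaf 835719) (.node 11 (.leaf 921741) (.node
  12 (.leaf 934023) (.leaf 8799610) (.node 10 (.leaf 909417) (.leaf 7926634) (.leaf 9560816)))
  (.leaf 11932244)) (.leaf 3330800))) (.leaf 37198730)) (.node 47 (.node 3 (.leaf 2936973) (.leaf
  2421064) (.node 9 (.node 11 (.leaf 7213197) (.leaf 4067539) (.leaf 11932244)) (.leaf 4042963)
  (.leaf 11907668))) (.leaf 4509907) (.leaf 37198730)) (.node 9 (.node 11 (.leaf 7213197) (.node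
  13 (.leaf 7237737) (.leaf 5665897) (.node 12 (.leaf 7225449) (.leaf 8799610) (.leaf 9597296)))
  (.leaf 11931860)) (.leaf 5616745) (.leaf 11907284)))) (.node 47 (.node 2 (.leaf 2150541) (.node
  11 (.node 9 (.leaf 7213197) (.leaf 4043155) (.leaf 7312787)) (.leaf 4067875) (.leaf 8885651))
  (.leaf 15028745)) (.node 10 (.node 2 (.leaf 1695849) (.leaf 4510099) (.leaf 15028745)) (.leaf
  37086217) (.leaf 8099267)) (.leaf 37197203)))

def t5 : Tr :=
  (.node 5 (.node 8 (.leaf 4030503) (.node 18 (.leaf 14217273) (.node 15 (.leaf 11858025) (.leaf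
  14341690) (.node 1 (.leaf 848007) (.leaf 6512995) (.node 2 (.leaf 1634439) (.leaf 6513187)
  (.node 7 (.leaf 4018215) (.node 9 (.leaf 7139433) (.leaf 6403561) (.leaf 11907284)) (.leaf
  5529956))))) (.node 36 (.leaf 28373097) (.node 7 (.leaf 4018215) (.node 1 (.leaf 848007) (.leaf
  28397896) (.leaf 15163628)) (.leaf 14390675)) (.leaf 15388139))) (.node 9 (.leaf 7139433) (.node
  10 (.leaf 7925865) (.node 7 (.leaf 4018215) (.leaf 7202218) (.node 2 (.leaf 1634439) (.node 1
  (.leaf 848007) (.node 18 (.leaf 14217273) (.leaf 8085739) (.leaf 14390675)) (.node 36 (.leaf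
  28373097) (.node 18 (.leaf 14217273) (.leaf 28533163) (.leaf 5726564)) (.leaf 28397897))) (.leaf
  15028745))) (.leaf 8099459)) (.leaf 7312979))) t4 (.node 6 (.node 11 (.leaf 4853901) (.node 44
  (.leaf 5259369) (.node 3 (.leaf 2433129) (.leaf 34738771) (.node 1 (.leaf 860265) (.leaf
  34738387) (.leaf 2421065))) (.leaf 34837571)) (.leaf 8885267)) (.node 44 (.node 1 (.leaf
  1327209) (.node 9 (.leaf 7618665) (.node 8 (.leaf 34701447) (.leaf 6402403) (.node 15 (.leaf
  34787433) (.leaf 11907283) (.leaf 11895887))) (.leaf 7312394)) (.node 15 (.leaf 34787433) (.node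
  9 (.leaf 7618665) (.node 3 (.leaf 2900073) (.leaf 11907667) (.leaf 2421065)) (.leaf 4042964))
  (.leaf 4116848))) (.node 1 (.node 47 (.leaf 1364109) (.leaf 35181715) (.leaf 37196810)) (.node
  15 (.node 14 (.leaf 11194473) (.leaf 34775251) (.leaf 11244563)) (.node 9 (.node 11 (.leaf
  7213197) (.leaf 11931859) (.leaf 8885267)) (.leaf 11907283) (.leaf 7312394)) (.node 14 (.node 17
  (.leaf 11219049) (.leaf 13443439) (.node 43 (.node 22 (.leaf 34087017) (.leaf 17375599) (.leaf
  15215564)) (.leaf 35131603) (.leaf 13898858))) (.leaf 34775251) (.leaf 11244563))) (.node 15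
  (.node 14 (.leaf 11194473) (.node 3 (.leaf 2543721) (.leaf 34775635) (.leaf 2421065)) (.leaf
  4104404)) (.node 47 (.node 3 (.leaf 2936973) (.node 11 (.node 9 (.leaf 7213197) (.leaf 11907667)
  (.leaf 4042964)) (.leaf 11932243) (.leaf 4067540)) (.leaf 2421065)) (.leaf 12375187) (.leaf
  4509908)) (.leaf 4116848))) (.leaf 34837571)) (.leaf 4953155)))

def t6 : Tr :=
  (.node 22 (.leaf 15215751) (.node 10 (.node 15 (.leaf 11995026) (.leaf 11882536) (.node 23
  (.node 1 (.leaf 8147154) (.leaf 872584) (.leaf 4116848)) (.leaf 18359722) (.leaf 18273290)))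
  (.leaf 8136106) (.node 1 (.node 2 (.node 17 (.leaf 13394274) (.node 18 (.leaf 15163626) (.leaf
  14366074) (.leaf 14279786)) (.leaf 13493354)) (.leaf 1659016) (.leaf 4055600)) (.leaf 872584)
  (.leaf 4055408))) (.node 6 (.node 12 (.leaf 12818769) (.leaf 9523240) (.node 15 (.leaf 11994258)
  (.leaf 11882536) (.node 1 (.node 2 (.node 23 (.leaf 5001426) (.node 17 (.leaf 13394274) (.leaf
  18298282) (.node 24 (.leaf 5013714) (.node 25 (.leaf 19685730) (.leaf 19183018) (.node 26 (.node
  14 (.leaf 20619474) (.node 21 (.leaf 16540002) (.leaf 11269546) (.node 31 (.node 30 (.leaf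
  24748242) (.node 20 (.leaf 15753570) (.leaf 23840170) (.node 32 (.node 29 (.leaf 25522386)
  (.node 33 (.leaf 25977186) (.leaf 23213482) (.node 34 (.node 28 (.leaf 27082962) (.node 35
  (.leaf 27550050) (.leaf 22451626) (.node 36 (.node 38 (.leaf 28778706) (.node 39 (.leaf
  30695778) (.leaf 30365098) (.node 46 (.node 40 (.leaf 36667602) (.node 45 (.leaf 35414370)
  (.node 27 (.node 37 (.leaf 29122914) (.leaf 31913386) (.node 41 (.leaf 32575698) (.leaf
  32329864) (.leaf 29602922))) (.leaf 21788074) (.leaf 13702250)) (.node 42 (.leaf 33226962)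
  (.leaf 33116296) (.leaf 35906666))) (.leaf 13861994)) (.leaf 36262024) (.leaf 31237226))) (.leaf
  13837418)) (.leaf 28397704) (.leaf 27968618))) (.leaf 13714538)) (.leaf 26824840) (.leaf
  26371178))) (.leaf 13726826)) (.leaf 25251976) (.leaf 16122986))) (.leaf 13739114)) (.leaf
  24465544) (.leaf 16897130))) (.leaf 13542506)) (.leaf 20533384) (.leaf 19981418))) (.leaf
  19061066))) (.leaf 18273290)) (.leaf 1659016) (.leaf 4117040)) (.leaf 872584) (.leaf 4116848))))
  (.leaf 4804744) (.leaf 17376362)))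

def t7 : Tr :=
  (.node 7 (.node 47 (.leaf 37197201) (.node 2 (.leaf 15028743) (.leaf 2150542) (.node 11 (.leaf
  8885649) (.node 9 (.leaf 7312785) (.leaf 7213198) (.leaf 4043156)) (.leaf 4067876))) (.node 10
  (.leaf 8099265) (.node 2 (.leaf 15028743) (.leaf 1695850) (.leaf 4510100)) (.leaf 37086218)))
  (.node 16 t6 (.node 15 (.node 9 (.node 3 (.leaf 11907666) (.leaf 2445448) (.node 1 (.leaf
  11907282) (.leaf 872584) (.leaf 2421065))) (.node 47 (.leaf 37198728) (.leaf 7656910) (.node 1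
  (.node 2 (.node 4 (.leaf 3170658) (.leaf 5616553) (.node 8 (.leaf 6316386) (.leaf 6403561)
  (.node 10 (.node 11 (.leaf 11931858) (.leaf 7213198) (.node 12 (.leaf 9560430) (.leaf 9523240)
  (.leaf 8799803))) (.leaf 7202218) (.leaf 7926635)))) (.leaf 1659016) (.leaf 4510100)) (.leaf
  872584) (.leaf 4509908))) (.node 4 (.leaf 12030849) (.leaf 5702569) (.leaf 7140203))) (.leaf
  11882536) (.node 47 (.node 1 (.node 2 (.node 4 (.leaf 3170658) (.leaf 5702569) (.node 6 (.leaf
  5296338) (.leaf 4804744) (.leaf 4780907))) (.leaf 1659016) (.leaf 4117040)) (.leaf 872584)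
  (.leaf 4116848)) (.node 1 (.node 2 (.node 4 (.leaf 3170658) (.leaf 5702569) (.node 43 (.node 44
  (.leaf 35131602) (.leaf 34689160) (.leaf 34665323)) (.leaf 34395598) (.leaf 33878891))) (.leaf
  1659016) (.leaf 4117040)) (.leaf 872584) (.leaf 4116848)) (.leaf 37147658))) (.node 47 (.node 44
  (.leaf 35184210) (.leaf 34689160) (.leaf 13124618)) (.node 1 (.node 43 (.node 44 (.leaf
  35131602) (.leaf 34689160) (.leaf 13124618)) (.leaf 34395598) (.leaf 13112330)) (.leaf 872584)
  (.leaf 4128980)) (.node 15 (.node 1 (.node 2 (.node 8 (.leaf 6316386) (.node 9 (.leaf 11907282)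
  (.leaf 6403561) (.leaf 12694538)) (.leaf 6489194)) (.leaf 1659016) (.leaf 4129172)) (.leaf
  872584) (.leaf 4128980)) (.leaf 11882536) (.leaf 37147658)))) (.node 15 (.node 1 (.node 9 (.leaf
  11907282) (.node 11 (.leaf 11931858) (.leaf 7213198) (.node 13 (.node 12 (.leaf 9597294) (.leaf
  7225450) (.leaf 8799611)) (.leaf 7237738) (.leaf 5665898))) (.leaf 5616746)) (.node 47 (.leaf
  37198728) (.leaf 1364110) (.node 3 (.node 4 (.leaf 3330798) (.leaf 835720) (.node 11 (.leaf
  11932242) (.leaf 921742) (.node 12 (.node 10 (.leaf 9560814) (.leaf 909418) (.leaf 7926635))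
  (.leaf 934024) (.leaf 8799611)))) (.leaf 823402) (.leaf 4510292))) (.node 47 (.leaf 37198728)
  (.node 3 (.node 9 (.leaf 11907666) (.node 11 (.leaf 11932242) (.leaf 7213198) (.leaf 4067540))
  (.leaf 4042964)) (.leaf 2936974) (.leaf 2421065)) (.leaf 4509908))) (.node 26 (.node 14 (.node
  31 (.node 3 (.leaf 24552018) (.leaf 2543722) (.node 1 (.leaf 20619474) (.leaf 970858) (.leaf
  2421065))) (.leaf 24563818) (.leaf 24466511)) (.leaf 11194474) (.leaf 5678186)) (.leaf 20631658)
  (.leaf 20534351)) (.leaf 11883599)))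

def t8 : Tr :=
  (.node 5 (.node 6 (.leaf 4953153) (.node 11 (.leaf 8885265) (.leaf 4853902) (.node 44 (.leaf
  34837569) (.leaf 5259370) (.node 3 (.node 1 (.leaf 2421063) (.leaf 860266) (.leaf 34738388))
  (.leaf 2433130) (.leaf 34738772)))) (.node 44 (.leaf 34837569) (.node 1 (.node 15 (.leaf
  4116846) (.leaf 34787434) (.node 9 (.leaf 4042962) (.leaf 7618666) (.node 3 (.leaf 2421063)
  (.leaf 2900074) (.leaf 11907668)))) (.leaf 1327210) (.node 9 (.leaf 7312392) (.leaf 7618666)
  (.node 8 (.node 15 (.leaf 11895885) (.leaf 34787434) (.leaf 11907284)) (.leaf 34701448) (.leaf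
  6402404)))) (.node 1 (.node 15 (.leaf 4116846) (.node 14 (.leaf 4104402) (.leaf 11194474) (.node
  3 (.leaf 2421063) (.leaf 2543722) (.leaf 34775636))) (.node 47 (.leaf 4509906) (.node 3 (.leaf
  2421063) (.leaf 2936974) (.node 11 (.leaf 4067538) (.node 9 (.leaf 4042962) (.leaf 7213198)
  (.leaf 11907668)) (.leaf 11932244))) (.leaf 12375188))) (.node 47 (.leaf 37196808) (.leaf
  1364110) (.leaf 35181716)) (.node 15 (.node 14 (.leaf 11244561) (.node 17 (.node 43 (.leaf
  13898856) (.node 22 (.leaf 15215562) (.leaf 34087018) (.leaf 17375600)) (.leaf 35131604)) (.leaf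
  11219050) (.leaf 13443440)) (.leaf 34775252)) (.node 14 (.leaf 11244561) (.leaf 11194474) (.leaf
  34775252)) (.node 9 (.leaf 7312392) (.node 11 (.leaf 8885265) (.leaf 7213198) (.leaf 11931860))
  (.leaf 11907284)))))) (.node 8 (.node 9 (.leaf 7312977) (.leaf 7139434) (.node 10 (.leaf
  8099457) (.leaf 7925866) (.node 7 (.node 2 (.leaf 15028743) (.leaf 1634440) (.node 1 (.node 36
  (.leaf 28397895) (.leaf 28373098) (.node 18 (.leaf 5726562) (.leaf 14217274) (.leaf 28533164)))
  (.leaf 848008) (.node 18 (.leaf 14390673) (.leaf 14217274) (.leaf 8085740)))) (.leaf 4018216)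
  (.leaf 7202219)))) (.leaf 4030504) (.node 18 (.node 36 (.leaf 15388137) (.leaf 28373098) (.node
  7 (.leaf 14390673) (.leaf 4018216) (.node 1 (.leaf 15163626) (.leaf 848008) (.leaf 28397897))))
  (.leaf 14217274) (.node 15 (.node 1 (.node 2 (.node 7 (.leaf 5529954) (.leaf 4018216) (.node 9
  (.leaf 11907282) (.leaf 7139434) (.leaf 6403562))) (.leaf 1634440) (.leaf 6513188)) (.leaf
  848008) (.leaf 6512996)) (.leaf 11858026) (.leaf 14341691)))) t7)

def t9 : Tr :=
  (.node 22 (.node 6 (.leaf 17376360) (.leaf 4804744) (.node 12 (.node 15 (.node 1 (.leaf 4116846)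
  (.leaf 872584) (.node 2 (.leaf 4117038) (.leaf 1659016) (.node 23 (.leaf 18273288) (.node 17
  (.node 24 (.leaf 19061064) (.node 25 (.node 26 (.leaf 19981416) (.leaf 20533384) (.node 14
  (.leaf 13542504) (.node 21 (.node 31 (.leaf 16897128) (.leaf 24465544) (.node 30 (.leaf
  13739112) (.node 20 (.node 32 (.leaf 16122984) (.leaf 25251976) (.node 29 (.leaf 13726824)
  (.node 33 (.node 34 (.leaf 26371176) (.leaf 26824840) (.node 28 (.leaf 13714536) (.node 35
  (.node 36 (.leaf 27968616) (.leaf 28397704) (.node 38 (.leaf 13837416) (.node 39 (.node 46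
  (.leaf 31237224) (.leaf 36262024) (.node 40 (.leaf 13861992) (.node 45 (.node 42 (.leaf
  35906664) (.leaf 33116296) (.leaf 33226964)) (.node 27 (.leaf 13702248) (.leaf 21788074) (.node
  37 (.node 41 (.leaf 29602920) (.leaf 32329864) (.leaf 32575700)) (.leaf 31913386) (.leaf
  29122916))) (.leaf 35414372)) (.leaf 36667604))) (.leaf 30365098) (.leaf 30695780)) (.leaf
  28778708))) (.leaf 22451626) (.leaf 27550052)) (.leaf 27082964))) (.leaf 23213482) (.leaf
  25977188)) (.leaf 25522388))) (.leaf 23840170) (.leaf 15753572)) (.leaf 24748244))) (.leaf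
  11269546) (.leaf 16540004)) (.leaf 20619476))) (.leaf 19183018) (.leaf 19685732)) (.leaf
  5013716)) (.leaf 18298282) (.leaf 13394276)) (.leaf 5001428)))) (.leaf 11882536) (.leaf
  11994260)) (.leaf 9523240) (.leaf 12818771))) (.node 10 (.node 1 (.leaf 4055406) (.leaf 872584)
  (.node 2 (.leaf 4055598) (.leaf 1659016) (.node 17 (.leaf 13493352) (.node 18 (.leaf 14279784)
  (.leaf 14366074) (.leaf 15163628)) (.leaf 13394276)))) (.leaf 8136106) (.node 15 (.node 23
  (.leaf 18273288) (.leaf 18359722) (.node 1 (.leaf 4116846) (.leaf 872584) (.leaf 8147156)))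
  (.leaf 11882536) (.leaf 11995028))) (.leaf 15215753))

def t10 : Tr :=
  (.node 7 (.node 15 (.leaf 11883597) (.node 26 (.leaf 20534349) (.leaf 20631658) (.node 14 (.leaf
  5678184) (.leaf 11194474) (.node 31 (.leaf 24466509) (.leaf 24563818) (.node 3 (.node 1 (.leaf
  2421063) (.leaf 970858) (.leaf 20619476)) (.leaf 2543722) (.leaf 24552020))))) (.node 1 (.node
  47 (.leaf 4509906) (.node 3 (.leaf 2421063) (.leaf 2936974) (.node 9 (.leaf 4042962) (.node 11
  (.leaf 4067538) (.leaf 7213198) (.leaf 11932244)) (.leaf 11907668))) (.leaf 37198730)) (.node 47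
  (.node 3 (.leaf 4510290) (.leaf 823402) (.node 4 (.node 11 (.node 12 (.leaf 8799609) (.leaf
  934024) (.node 10 (.leaf 7926633) (.leaf 909418) (.leaf 9560816))) (.leaf 921742) (.leaf
  11932244)) (.leaf 835720) (.leaf 3330800))) (.leaf 1364110) (.leaf 37198730)) (.node 9 (.leaf
  5616744) (.node 11 (.node 13 (.leaf 5665896) (.leaf 7237738) (.node 12 (.leaf 8799609) (.leaf
  7225450) (.leaf 9597296))) (.leaf 7213198) (.leaf 11931860)) (.leaf 11907284)))) (.node 16
  (.node 47 (.node 15 (.leaf 37147656) (.leaf 11882536) (.node 1 (.leaf 4128978) (.leaf 872584)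
  (.node 2 (.leaf 4129170) (.leaf 1659016) (.node 8 (.leaf 6489192) (.node 9 (.leaf 12694536)
  (.leaf 6403561) (.leaf 11907284)) (.leaf 6316388))))) (.node 1 (.leaf 4128978) (.leaf 872584)
  (.node 43 (.leaf 13112328) (.leaf 34395598) (.node 44 (.leaf 13124616) (.leaf 34689160) (.leaf
  35131604)))) (.node 44 (.leaf 13124616) (.leaf 34689160) (.leaf 35184212))) (.node 15 (.node 47
  (.leaf 37147656) (.node 1 (.leaf 4116846) (.leaf 872584) (.node 2 (.leaf 4117038) (.leaf
  1659016) (.node 4 (.node 43 (.leaf 33878889) (.leaf 34395598) (.node 44 (.leaf 34665321) (.leaf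
  34689160) (.leaf 35131604))) (.leaf 5702569) (.leaf 3170660)))) (.node 1 (.leaf 4116846) (.leaf
  872584) (.node 2 (.leaf 4117038) (.leaf 1659016) (.node 4 (.node 6 (.leaf 4780905) (.leaf
  4804744) (.leaf 5296340)) (.leaf 5702569) (.leaf 3170660))))) (.leaf 11882536) (.node 9 (.node 4
  (.leaf 7140201) (.leaf 5702569) (.leaf 12030851)) (.node 47 (.node 1 (.leaf 4509906) (.leaf
  872584) (.node 2 (.leaf 4510098) (.leaf 1659016) (.node 4 (.node 8 (.node 10 (.leaf 7926633)
  (.leaf 7202218) (.node 11 (.node 12 (.leaf 8799801) (.leaf 9523240) (.leaf 9560432)) (.leaf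
  7213198) (.leaf 11931860))) (.leaf 6403561) (.leaf 6316388)) (.leaf 5616553) (.leaf 3170660))))
  (.leaf 7656910) (.leaf 37198730)) (.node 3 (.node 1 (.leaf 2421063) (.leaf 872584) (.leaf
  11907284)) (.leaf 2445448) (.leaf 11907668)))) t9) (.node 47 (.node 10 (.leaf 37086216) (.node 2
  (.leaf 4510098) (.leaf 1695850) (.leaf 15028745)) (.leaf 8099267)) (.node 2 (.node 11 (.leaf
  4067874) (.node 9 (.leaf 4043154) (.leaf 7213198) (.leaf 7312787)) (.leaf 8885651)) (.leaf
  2150542) (.leaf 15028745)) (.leaf 37197203)))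

def t11 : Tr :=
  (.node 5 t10 (.node 8 (.node 18 (.node 15 (.leaf 14341689) (.leaf 11858026) (.node 1 (.leaf
  6512994) (.leaf 848008) (.node 2 (.leaf 6513186) (.leaf 1634440) (.node 7 (.node 9 (.leaf
  6403560) (.leaf 7139434) (.leaf 11907284)) (.leaf 4018216) (.leaf 5529956))))) (.leaf 14217274)
  (.node 36 (.node 7 (.node 1 (.leaf 28397895) (.leaf 848008) (.leaf 15163628)) (.leaf 4018216)
  (.leaf 14390675)) (.leaf 28373098) (.leaf 15388139))) (.leaf 4030504) (.node 9 (.node 10 (.node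
  7 (.leaf 7202217) (.leaf 4018216) (.node 2 (.node 1 (.node 18 (.leaf 8085738) (.leaf 14217274)
  (.leaf 14390675)) (.leaf 848008) (.node 36 (.node 18 (.leaf 28533162) (.leaf 14217274) (.leaf
  5726564)) (.leaf 28373098) (.leaf 28397897))) (.leaf 1634440) (.leaf 15028745))) (.leaf 7925866)
  (.leaf 8099459)) (.leaf 7139434) (.leaf 7312979))) (.node 6 (.node 44 (.node 1 (.node 15 (.node
  9 (.leaf 11907282) (.node 11 (.leaf 11931858) (.leaf 7213198) (.leaf 8885267)) (.leaf 7312394))
  (.node 14 (.leaf 34775250) (.leaf 11194474) (.leaf 11244563)) (.node 14 (.leaf 34775250) (.node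
  17 (.leaf 13443438) (.leaf 11219050) (.node 43 (.leaf 35131602) (.node 22 (.leaf 17375598)
  (.leaf 34087018) (.leaf 15215564)) (.leaf 13898858))) (.leaf 11244563))) (.node 47 (.leaf
  35181714) (.leaf 1364110) (.leaf 37196810)) (.node 15 (.node 47 (.leaf 12375186) (.node 3 (.node
  11 (.leaf 11932242) (.node 9 (.leaf 11907666) (.leaf 7213198) (.leaf 4042964)) (.leaf 4067540))
  (.leaf 2936974) (.leaf 2421065)) (.leaf 4509908)) (.node 14 (.node 3 (.leaf 34775634) (.leaf
  2543722) (.leaf 2421065)) (.leaf 11194474) (.leaf 4104404)) (.leaf 4116848))) (.node 1 (.node 9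
  (.node 8 (.leaf 6402402) (.leaf 34701448) (.node 15 (.leaf 11907282) (.leaf 34787434) (.leaf
  11895887))) (.leaf 7618666) (.leaf 7312394)) (.leaf 1327210) (.node 15 (.node 9 (.node 3 (.leaf
  11907666) (.leaf 2900074) (.leaf 2421065)) (.leaf 7618666) (.leaf 4042964)) (.leaf 34787434)
  (.leaf 4116848))) (.leaf 34837571)) (.node 11 (.node 44 (.node 3 (.leaf 34738770) (.leaf
  2433130) (.node 1 (.leaf 34738386) (.leaf 860266) (.leaf 2421065))) (.leaf 5259370) (.leaf
  34837571)) (.leaf 4853902) (.leaf 8885267)) (.leaf 4953155)))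

def t12 : Tr :=
  (.node 22 (.leaf 15215751) (.node 6 (.node 12 (.leaf 12818769) (.node 15 (.leaf 11994258) (.node
  1 (.node 2 (.node 23 (.leaf 5001426) (.leaf 18273289) (.node 17 (.leaf 13394274) (.node 24
  (.leaf 5013714) (.leaf 19061065) (.node 25 (.leaf 19685730) (.node 26 (.node 14 (.leaf 20619474)
  (.leaf 13542505) (.node 21 (.leaf 16540002) (.node 31 (.node 30 (.leaf 24748242) (.leaf
  13739113) (.node 20 (.leaf 15753570) (.node 32 (.node 29 (.leaf 25522386) (.leaf 13726825)
  (.node 33 (.leaf 25977186) (.node 34 (.node 28 (.leaf 27082962) (.leaf 13714537) (.node 35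
  (.leaf 27550050) (.node 36 (.node 38 (.leaf 28778706) (.leaf 13837417) (.node 39 (.leaf
  30695778) (.node 46 (.node 40 (.leaf 36667602) (.leaf 13861993) (.node 45 (.leaf 35414370)
  (.node 42 (.leaf 33226962) (.leaf 35906665) (.leaf 33116297)) (.node 27 (.node 37 (.leaf
  29122914) (.node 41 (.leaf 32575698) (.leaf 29602921) (.leaf 32329865)) (.leaf 31913387)) (.leaf
  13702249) (.leaf 21788075)))) (.leaf 31237225) (.leaf 36262025)) (.leaf 30365099))) (.leaf
  27968617) (.leaf 28397705)) (.leaf 22451627))) (.leaf 26371177) (.leaf 26824841)) (.leaf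
  23213483))) (.leaf 16122985) (.leaf 25251977)) (.leaf 23840171))) (.leaf 16897129) (.leaf
  24465545)) (.leaf 11269547))) (.leaf 19981417) (.leaf 20533385)) (.leaf 19183019))) (.leaf
  18298283))) (.leaf 4117039) (.leaf 1659017)) (.leaf 4116847) (.leaf 872585)) (.leaf 11882537))
  (.leaf 9523241)) (.leaf 17376361) (.leaf 4804745)) (.node 10 (.node 15 (.leaf 11995026) (.node
  23 (.node 1 (.leaf 8147154) (.leaf 4116847) (.leaf 872585)) (.leaf 18273289) (.leaf 18359723))
  (.leaf 11882537)) (.node 1 (.node 2 (.node 17 (.leaf 13394274) (.leaf 13493353) (.node 18 (.leaf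
  15163626) (.leaf 14279785) (.leaf 14366075))) (.leaf 4055599) (.leaf 1659017)) (.leaf 4055407)
  (.leaf 872585)) (.leaf 8136107)))

def t13 : Tr :=
  (.node 7 (.node 47 (.leaf 37197201) (.node 10 (.leaf 8099265) (.leaf 37086217) (.node 2 (.leaf
  15028743) (.leaf 4510099) (.leaf 1695851))) (.node 2 (.leaf 15028743) (.node 11 (.leaf 8885649)
  (.leaf 4067875) (.node 9 (.leaf 7312785) (.leaf 4043155) (.leaf 7213199))) (.leaf 2150543)))
  (.node 15 (.node 1 (.node 9 (.leaf 11907282) (.leaf 5616745) (.node 11 (.leaf 11931858) (.node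
  13 (.node 12 (.leaf 9597294) (.leaf 8799610) (.leaf 7225451)) (.leaf 5665897) (.leaf 7237739))
  (.leaf 7213199))) (.node 47 (.leaf 37198728) (.leaf 4509907) (.node 3 (.node 9 (.leaf 11907666)
  (.leaf 4042963) (.node 11 (.leaf 11932242) (.leaf 4067539) (.leaf 7213199))) (.leaf 2421064)
  (.leaf 2936975))) (.node 47 (.leaf 37198728) (.node 3 (.node 4 (.leaf 3330798) (.node 11 (.leaf
  11932242) (.node 12 (.node 10 (.leaf 9560814) (.leaf 7926634) (.leaf 909419)) (.leaf 8799610)
  (.leaf 934025)) (.leaf 921743)) (.leaf 835721)) (.leaf 4510291) (.leaf 823403)) (.leaf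
  1364111))) (.leaf 11883598) (.node 26 (.node 14 (.node 31 (.node 3 (.leaf 24552018) (.node 1
  (.leaf 20619474) (.leaf 2421064) (.leaf 970859)) (.leaf 2543723)) (.leaf 24466510) (.leaf
  24563819)) (.leaf 5678185) (.leaf 11194475)) (.leaf 20534350) (.leaf 20631659))) (.node 16 t12
  (.node 47 (.node 44 (.leaf 35184210) (.leaf 13124617) (.leaf 34689161)) (.node 15 (.node 1
  (.node 2 (.node 8 (.leaf 6316386) (.leaf 6489193) (.node 9 (.leaf 11907282) (.leaf 12694537)
  (.leaf 6403562))) (.leaf 4129171) (.leaf 1659017)) (.leaf 4128979) (.leaf 872585)) (.leaf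
  37147657) (.leaf 11882537)) (.node 1 (.node 43 (.node 44 (.leaf 35131602) (.leaf 13124617)
  (.leaf 34689161)) (.leaf 13112329) (.leaf 34395599)) (.leaf 4128979) (.leaf 872585))) (.node 15
  (.node 9 (.node 3 (.leaf 11907666) (.node 1 (.leaf 11907282) (.leaf 2421064) (.leaf 872585))
  (.leaf 2445449)) (.node 4 (.leaf 12030849) (.leaf 7140202) (.leaf 5702570)) (.node 47 (.leaf
  37198728) (.node 1 (.node 2 (.node 4 (.leaf 3170658) (.node 8 (.leaf 6316386) (.node 10 (.node
  11 (.leaf 11931858) (.node 12 (.leaf 9560430) (.leaf 8799802) (.leaf 9523241)) (.leaf 7213199))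
  (.leaf 7926634) (.leaf 7202219)) (.leaf 6403562)) (.leaf 5616554)) (.leaf 4510099) (.leaf
  1659017)) (.leaf 4509907) (.leaf 872585)) (.leaf 7656911))) (.node 47 (.node 1 (.node 2 (.node 4
  (.leaf 3170658) (.node 6 (.leaf 5296338) (.leaf 4780906) (.leaf 4804745)) (.leaf 5702570))
  (.leaf 4117039) (.leaf 1659017)) (.leaf 4116847) (.leaf 872585)) (.leaf 37147657) (.node 1
  (.node 2 (.node 4 (.leaf 3170658) (.node 43 (.node 44 (.leaf 35131602) (.leaf 34665322) (.leaf
  34689161)) (.leaf 33878890) (.leaf 34395599)) (.leaf 5702570)) (.leaf 4117039) (.leaf 1659017))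
  (.leaf 4116847) (.leaf 872585))) (.leaf 11882537))))

def t14 : Tr :=
  (.node 5 (.node 6 (.leaf 4953153) (.node 44 (.leaf 34837569) (.node 1 (.node 15 (.leaf 4116846)
  (.node 47 (.leaf 4509906) (.leaf 12375187) (.node 3 (.leaf 2421063) (.node 11 (.leaf 4067538)
  (.leaf 11932243) (.node 9 (.leaf 4042962) (.leaf 11907667) (.leaf 7213199))) (.leaf 2936975)))
  (.node 14 (.leaf 4104402) (.node 3 (.leaf 2421063) (.leaf 34775635) (.leaf 2543723)) (.leaf
  11194475))) (.node 15 (.node 14 (.leaf 11244561) (.leaf 34775251) (.node 17 (.node 43 (.leaf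
  13898856) (.leaf 35131603) (.node 22 (.leaf 15215562) (.leaf 17375599) (.leaf 34087019))) (.leaf
  13443439) (.leaf 11219051))) (.node 9 (.leaf 7312392) (.leaf 11907283) (.node 11 (.leaf 8885265)
  (.leaf 11931859) (.leaf 7213199))) (.node 14 (.leaf 11244561) (.leaf 34775251) (.leaf
  11194475))) (.node 47 (.leaf 37196808) (.leaf 35181715) (.leaf 1364111))) (.node 1 (.node 15
  (.leaf 4116846) (.node 9 (.leaf 4042962) (.node 3 (.leaf 2421063) (.leaf 11907667) (.leaf
  2900075)) (.leaf 7618667)) (.leaf 34787435)) (.node 9 (.leaf 7312392) (.node 8 (.node 15 (.leaf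
  11895885) (.leaf 11907283) (.leaf 34787435)) (.leaf 6402403) (.leaf 34701449)) (.leaf 7618667))
  (.leaf 1327211))) (.node 11 (.leaf 8885265) (.node 44 (.leaf 34837569) (.node 3 (.node 1 (.leaf
  2421063) (.leaf 34738387) (.leaf 860267)) (.leaf 34738771) (.leaf 2433131)) (.leaf 5259371))
  (.leaf 4853903))) t13 (.node 8 (.node 9 (.leaf 7312977) (.node 10 (.leaf 8099457) (.node 7
  (.node 2 (.leaf 15028743) (.node 1 (.node 36 (.leaf 28397895) (.node 18 (.leaf 5726562) (.leaf
  28533163) (.leaf 14217275)) (.leaf 28373099)) (.node 18 (.leaf 14390673) (.leaf 8085739) (.leaf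
  14217275)) (.leaf 848009)) (.leaf 1634441)) (.leaf 7202218) (.leaf 4018217)) (.leaf 7925867))
  (.leaf 7139435)) (.node 18 (.node 36 (.leaf 15388137) (.node 7 (.leaf 14390673) (.node 1 (.leaf
  15163626) (.leaf 28397896) (.leaf 848009)) (.leaf 4018217)) (.leaf 28373099)) (.node 15 (.node 1
  (.node 2 (.node 7 (.leaf 5529954) (.node 9 (.leaf 11907282) (.leaf 6403561) (.leaf 7139435))
  (.leaf 4018217)) (.leaf 6513187) (.leaf 1634441)) (.leaf 6512995) (.leaf 848009)) (.leaf
  14341690) (.leaf 11858027)) (.leaf 14217275)) (.leaf 4030505)))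

def t15 : Tr :=
  (.node 22 (.node 6 (.leaf 17376360) (.node 12 (.node 15 (.node 1 (.leaf 4116846) (.node 2 (.leaf
  4117038) (.node 23 (.leaf 18273288) (.leaf 5001427) (.node 17 (.node 24 (.leaf 19061064) (.leaf
  5013715) (.node 25 (.node 26 (.leaf 19981416) (.node 14 (.leaf 13542504) (.leaf 20619475) (.node
  21 (.node 31 (.leaf 16897128) (.node 30 (.leaf 13739112) (.leaf 24748243) (.node 20 (.node 32
  (.leaf 16122984) (.node 29 (.leaf 13726824) (.leaf 25522387) (.node 33 (.node 34 (.leaf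
  26371176) (.node 28 (.leaf 13714536) (.leaf 27082963) (.node 35 (.node 36 (.leaf 27968616)
  (.node 38 (.leaf 13837416) (.leaf 28778707) (.node 39 (.node 46 (.leaf 31237224) (.node 40
  (.leaf 13861992) (.leaf 36667603) (.node 45 (.node 42 (.leaf 35906664) (.leaf 33226963) (.leaf
  33116297)) (.leaf 35414371) (.node 27 (.leaf 13702248) (.node 37 (.node 41 (.leaf 29602920)
  (.leaf 32575699) (.leaf 32329865)) (.leaf 29122915) (.leaf 31913387)) (.leaf 21788075)))) (.leaf
  36262025)) (.leaf 30695779) (.leaf 30365099))) (.leaf 28397705)) (.leaf 27550051) (.leaf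
  22451627))) (.leaf 26824841)) (.leaf 25977187) (.leaf 23213483))) (.leaf 25251977)) (.leaf
  15753571) (.leaf 23840171))) (.leaf 24465545)) (.leaf 16540003) (.leaf 11269547))) (.leaf
  20533385)) (.leaf 19685731) (.leaf 19183019))) (.leaf 13394275) (.leaf 18298283))) (.leaf
  1659017)) (.leaf 872585)) (.leaf 11994259) (.leaf 11882537)) (.leaf 12818770) (.leaf 9523241))
  (.leaf 4804745)) (.leaf 15215752) (.node 10 (.node 1 (.leaf 4055406) (.node 2 (.leaf 4055598)
  (.node 17 (.leaf 13493352) (.leaf 13394275) (.node 18 (.leaf 14279784) (.leaf 15163627) (.leaf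
  14366075))) (.leaf 1659017)) (.leaf 872585)) (.node 15 (.node 23 (.leaf 18273288) (.node 1
  (.leaf 4116846) (.leaf 8147155) (.leaf 872585)) (.leaf 18359723)) (.leaf 11995027) (.leaf
  11882537)) (.leaf 8136107)))

def t16 : Tr :=
  (.node 7 (.node 15 (.leaf 11883597) (.node 1 (.node 47 (.leaf 4509906) (.leaf 37198729) (.node 3
  (.leaf 2421063) (.node 9 (.leaf 4042962) (.leaf 11907667) (.node 11 (.leaf 4067538) (.leaf
  11932243) (.leaf 7213199))) (.leaf 2936975))) (.node 9 (.leaf 5616744) (.leaf 11907283) (.node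
  11 (.node 13 (.leaf 5665896) (.node 12 (.leaf 8799609) (.leaf 9597295) (.leaf 7225451)) (.leaf
  7237739)) (.leaf 11931859) (.leaf 7213199))) (.node 47 (.node 3 (.leaf 4510290) (.node 4 (.node
  11 (.node 12 (.leaf 8799609) (.node 10 (.leaf 7926633) (.leaf 9560815) (.leaf 909419)) (.leaf
  934025)) (.leaf 11932243) (.leaf 921743)) (.leaf 3330799) (.leaf 835721)) (.leaf 823403)) (.leaf
  37198729) (.leaf 1364111))) (.node 26 (.leaf 20534349) (.node 14 (.leaf 5678184) (.node 31
  (.leaf 24466509) (.node 3 (.node 1 (.leaf 2421063) (.leaf 20619475) (.leaf 970859)) (.leaf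
  24552019) (.leaf 2543723)) (.leaf 24563819)) (.leaf 11194475)) (.leaf 20631659))) (.node 47
  (.node 10 (.leaf 37086216) (.leaf 8099266) (.node 2 (.leaf 4510098) (.leaf 15028744) (.leaf
  1695851))) (.leaf 37197202) (.node 2 (.node 11 (.leaf 4067874) (.leaf 8885650) (.node 9 (.leaf
  4043154) (.leaf 7312786) (.leaf 7213199))) (.leaf 15028744) (.leaf 2150543))) (.node 16 (.node
  47 (.node 15 (.leaf 37147656) (.node 1 (.leaf 4128978) (.node 2 (.leaf 4129170) (.node 8 (.leaf
  6489192) (.leaf 6316387) (.node 9 (.leaf 12694536) (.leaf 11907283) (.leaf 6403562))) (.leaf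
  1659017)) (.leaf 872585)) (.leaf 11882537)) (.node 44 (.leaf 13124616) (.leaf 35184211) (.leaf
  34689161)) (.node 1 (.leaf 4128978) (.node 43 (.leaf 13112328) (.node 44 (.leaf 13124616) (.leaf
  35131603) (.leaf 34689161)) (.leaf 34395599)) (.leaf 872585))) t15 (.node 15 (.node 47 (.leaf
  37147656) (.node 1 (.leaf 4116846) (.node 2 (.leaf 4117038) (.node 4 (.node 6 (.leaf 4780905)
  (.leaf 5296339) (.leaf 4804745)) (.leaf 3170659) (.leaf 5702570)) (.leaf 1659017)) (.leaf
  872585)) (.node 1 (.leaf 4116846) (.node 2 (.leaf 4117038) (.node 4 (.node 43 (.leaf 33878889)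
  (.node 44 (.leaf 34665321) (.leaf 35131603) (.leaf 34689161)) (.leaf 34395599)) (.leaf 3170659)
  (.leaf 5702570)) (.leaf 1659017)) (.leaf 872585))) (.node 9 (.node 4 (.leaf 7140201) (.leaf
  12030850) (.leaf 5702570)) (.node 3 (.node 1 (.leaf 2421063) (.leaf 11907283) (.leaf 872585))
  (.leaf 11907667) (.leaf 2445449)) (.node 47 (.node 1 (.leaf 4509906) (.node 2 (.leaf 4510098)
  (.node 4 (.node 8 (.node 10 (.leaf 7926633) (.node 11 (.node 12 (.leaf 8799801) (.leaf 9560431)
  (.leaf 9523241)) (.leaf 11931859) (.leaf 7213199)) (.leaf 7202219)) (.leaf 6316387) (.leaf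
  6403562)) (.leaf 3170659) (.leaf 5616554)) (.leaf 1659017)) (.leaf 872585)) (.leaf 37198729)
  (.leaf 7656911))) (.leaf 11882537))))

def t17 : Tr :=
  (.node 5 t16 (.node 6 (.node 44 (.node 1 (.node 15 (.node 9 (.leaf 11907282) (.leaf 7312393)
  (.node 11 (.leaf 11931858) (.leaf 8885266) (.leaf 7213199))) (.node 14 (.leaf 34775250) (.leaf
  11244562) (.node 17 (.leaf 13443438) (.node 43 (.leaf 35131602) (.leaf 13898857) (.node 22
  (.leaf 17375598) (.leaf 15215563) (.leaf 34087019))) (.leaf 11219051))) (.node 14 (.leaf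
  34775250) (.leaf 11244562) (.leaf 11194475))) (.node 15 (.node 47 (.leaf 12375186) (.leaf
  4509907) (.node 3 (.node 11 (.leaf 11932242) (.leaf 4067539) (.node 9 (.leaf 11907666) (.leaf
  4042963) (.leaf 7213199))) (.leaf 2421064) (.leaf 2936975))) (.leaf 4116847) (.node 14 (.node 3
  (.leaf 34775634) (.leaf 2421064) (.leaf 2543723)) (.leaf 4104403) (.leaf 11194475))) (.node 47
  (.leaf 35181714) (.leaf 37196809) (.leaf 1364111))) (.leaf 34837570) (.node 1 (.node 9 (.node 8
  (.leaf 6402402) (.node 15 (.leaf 11907282) (.leaf 11895886) (.leaf 34787435)) (.leaf 34701449))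
  (.leaf 7312393) (.leaf 7618667)) (.node 15 (.node 9 (.node 3 (.leaf 11907666) (.leaf 2421064)
  (.leaf 2900075)) (.leaf 4042963) (.leaf 7618667)) (.leaf 4116847) (.leaf 34787435)) (.leaf
  1327211))) (.leaf 4953154) (.node 11 (.node 44 (.node 3 (.leaf 34738770) (.node 1 (.leaf
  34738386) (.leaf 2421064) (.leaf 860267)) (.leaf 2433131)) (.leaf 34837570) (.leaf 5259371))
  (.leaf 8885266) (.leaf 4853903))) (.node 8 (.node 18 (.node 15 (.leaf 14341689) (.node 1 (.leaf
  6512994) (.node 2 (.leaf 6513186) (.node 7 (.node 9 (.leaf 6403560) (.leaf 11907283) (.leaf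
  7139435)) (.leaf 5529955) (.leaf 4018217)) (.leaf 1634441)) (.leaf 848009)) (.leaf 11858027))
  (.node 36 (.node 7 (.node 1 (.leaf 28397895) (.leaf 15163627) (.leaf 848009)) (.leaf 14390674)
  (.leaf 4018217)) (.leaf 15388138) (.leaf 28373099)) (.leaf 14217275)) (.node 9 (.node 10 (.node
  7 (.leaf 7202217) (.node 2 (.node 1 (.node 18 (.leaf 8085738) (.leaf 14390674) (.leaf 14217275))
  (.node 36 (.node 18 (.leaf 28533162) (.leaf 5726563) (.leaf 14217275)) (.leaf 28397896) (.leaf
  28373099)) (.leaf 848009)) (.leaf 15028744) (.leaf 1634441)) (.leaf 4018217)) (.leaf 8099458)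
  (.leaf 7925867)) (.leaf 7312978) (.leaf 7139435)) (.leaf 4030505)))

def t18 : Tr :=
  (.node 0 (.node 19 (.node 1 (.leaf 1020009) (.node 47 (.leaf 15519885) (.node 4 (.leaf 14991495)
  (.leaf 3723475) (.node 5 (.leaf 15003783) (.leaf 4509907) (.node 6 (.leaf 15016041) (.leaf
  5296339) (.leaf 4780907)))) (.node 44 (.leaf 15482985) (.node 11 (.leaf 15077517) (.leaf
  34738387) (.node 3 (.leaf 2592873) (.node 4 (.leaf 14991495) (.leaf 2408776) (.node 2 (.leaf
  1806441) (.node 5 (.leaf 15003783) (.leaf 3957091) (.node 7 (.leaf 15028359) (.leaf 5529955)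
  (.node 10 (.leaf 15065193) (.node 12 (.leaf 15089769) (.leaf 9560431) (.leaf 8799611)) (.leaf
  7926635)))) (.leaf 3281444))) (.leaf 9229028))) (.node 5 (.leaf 15003783) (.node 2 (.leaf
  1806441) (.leaf 3957091) (.leaf 35180948)) (.leaf 37504010)))) (.node 47 (.leaf 15519885) (.node
  44 (.leaf 15482985) (.node 5 (.leaf 15003783) (.leaf 37504009) (.node 2 (.leaf 1806441) (.leaf
  35180947) (.leaf 3957092))) (.node 11 (.leaf 15077517) (.node 3 (.leaf 2592873) (.leaf 9229027)
  (.node 4 (.leaf 14991495) (.node 2 (.leaf 1806441) (.leaf 3281443) (.node 5 (.leaf 15003783)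
  (.node 7 (.leaf 15028359) (.node 10 (.leaf 15065193) (.leaf 7926634) (.node 12 (.leaf 15089769)
  (.leaf 8799610) (.leaf 9560432))) (.leaf 5529956)) (.leaf 3957092))) (.leaf 2408777))) (.leaf
  34738388))) (.node 4 (.leaf 14991495) (.node 5 (.leaf 15003783) (.node 6 (.leaf 15016041) (.leaf
  4780906) (.leaf 5296340)) (.leaf 4509908)) (.leaf 3723476)))) t2 t5) (.node 19 t8 (.node 1
  (.node 47 (.node 4 (.leaf 3723474) (.leaf 14991496) (.node 5 (.leaf 4509906) (.leaf 15003784)
  (.node 6 (.leaf 5296338) (.leaf 15016042) (.leaf 4780907)))) (.leaf 15519886) (.node 44 (.node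
  11 (.leaf 34738386) (.leaf 15077518) (.node 3 (.node 4 (.leaf 2408775) (.leaf 14991496) (.node 2
  (.node 5 (.leaf 3957090) (.leaf 15003784) (.node 7 (.leaf 5529954) (.leaf 15028360) (.node 10
  (.node 12 (.leaf 9560430) (.leaf 15089770) (.leaf 8799611)) (.leaf 15065194) (.leaf 7926635))))
  (.leaf 1806442) (.leaf 3281444))) (.leaf 2592874) (.leaf 9229028))) (.leaf 15482986) (.node 5
  (.node 2 (.leaf 3957090) (.leaf 1806442) (.leaf 35180948)) (.leaf 15003784) (.leaf 37504010))))
  (.leaf 1020010) (.node 47 (.node 44 (.node 5 (.leaf 37504008) (.leaf 15003784) (.node 2 (.leaf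
  35180946) (.leaf 1806442) (.leaf 3957092))) (.leaf 15482986) (.node 11 (.node 3 (.leaf 9229026)
  (.leaf 2592874) (.node 4 (.node 2 (.leaf 3281442) (.leaf 1806442) (.node 5 (.node 7 (.node 10
  (.leaf 7926633) (.leaf 15065194) (.node 12 (.leaf 8799609) (.leaf 15089770) (.leaf 9560432)))
  (.leaf 15028360) (.leaf 5529956)) (.leaf 15003784) (.leaf 3957092))) (.leaf 14991496) (.leaf
  2408777))) (.leaf 15077518) (.leaf 34738388))) (.leaf 15519886) (.node 4 (.node 5 (.node 6
  (.leaf 4780905) (.leaf 15016042) (.leaf 5296340)) (.leaf 15003784) (.leaf 4509908)) (.leaf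
  14991496) (.leaf 3723476)))) t11) (.node 19 t14 t17 (.node 1 (.node 47 (.node 4 (.leaf 3723474)
  (.node 5 (.leaf 4509906) (.node 6 (.leaf 5296338) (.leaf 4780906) (.leaf 15016043)) (.leaf
  15003785)) (.leaf 14991497)) (.node 44 (.node 11 (.leaf 34738386) (.node 3 (.node 4 (.leaf
  2408775) (.node 2 (.node 5 (.leaf 3957090) (.node 7 (.leaf 5529954) (.node 10 (.node 12 (.leaf
  9560430) (.leaf 8799610) (.leaf 15089771)) (.leaf 7926634) (.leaf 15065195)) (.leaf 15028361))
  (.leaf 15003785)) (.leaf 3281443) (.leaf 1806443)) (.leaf 14991497)) (.leaf 9229027) (.leaf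
  2592875)) (.leaf 15077519)) (.node 5 (.node 2 (.leaf 3957090) (.leaf 35180947) (.leaf 1806443))
  (.leaf 37504009) (.leaf 15003785)) (.leaf 15482987)) (.leaf 15519887)) (.node 47 (.node 44
  (.node 5 (.leaf 37504008) (.node 2 (.leaf 35180946) (.leaf 3957091) (.leaf 1806443)) (.leaf
  15003785)) (.node 11 (.node 3 (.leaf 9229026) (.node 4 (.node 2 (.leaf 3281442) (.node 5 (.node
  7 (.node 10 (.leaf 7926633) (.node 12 (.leaf 8799609) (.leaf 9560431) (.leaf 15089771)) (.leaf
  15065195)) (.leaf 5529955) (.leaf 15028361)) (.leaf 3957091) (.leaf 15003785)) (.leaf 1806443))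
  (.leaf 2408776) (.leaf 14991497)) (.leaf 2592875)) (.leaf 34738387) (.leaf 15077519)) (.leaf
  15482987)) (.node 4 (.node 5 (.node 6 (.leaf 4780905) (.leaf 5296339) (.leaf 15016043)) (.leaf
  4509907) (.leaf 15003785)) (.leaf 3723475) (.leaf 14991497)) (.leaf 15519887)) (.leaf
  1020011))))

theorem unit_ok : unitOk sq 48 = true := by decide +kernel

theorem pairs_ok : pairsOk KK sq 48 pts = true := by decide +kernel

theorem tree_ok : chk KK sq 48 t18 [] [] [] = true := by decide +kernel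

theorem KK_pos : 0 < KK := by decide +kernel

end Pool.Agent.Lib.MP_672b21_co
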